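import Mathlib

set_option autoImplicit false

namespace Pool.Agent.Lib.MP_2af702_co

/-- A point: an address in a tree together with an index. -/
abbrev Pt := List ℕ × ℕ

/-- Position key (lexicographic order on lists). -/
def pk : List ℕ → ℕ → List ℕ
  | [], s => [1, s]
  | a :: w, s => 0 :: a :: pk w s

/-- Value key: a larger value has a smaller key. -/
def vk : List ℕ → ℕ → List ℕ
  | [], s => [2 * s + 1]
  | a :: w, s => (2 * a) :: vk w s

theorem pk_inj : ∀ (w w' : List ℕ) (s s' : ℕ), pk w s = pk w' s' → w = w' ∧ s = s'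
  | [], [], s, s', h => by simpa [pk] using h
  | [], _ :: _, s, s', h => by simp [pk] at h
  | _ :: _, [], s, s', h => by simp [pk] at h
  | a :: w, b :: w', s, s', h => by
      simp only [pk, List.cons.injEq, true_and] at h
      obtain ⟨h1, h2⟩ := pk_inj w w' s s' h.2
      simp [h.1, h1, h2]

theorem vk_inj : ∀ (w w' : List ℕ) (s s' : ℕ), vk w s = vk w' s' → w = w' ∧ s = s'
  | [], [], s, s', h => by
      simp only [vk, List.cons.injEq, and_true] at h
      exact ⟨rfl, by omega⟩
  | [], b :: _, s, s', h => by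
      simp only [vk, List.cons.injEq] at h
      omega
  | a :: _, [], s, s', h => by
      simp only [vk, List.cons.injEq] at h
      omega
  | a :: w, b :: w', s, s', h => by
      simp only [vk, List.cons.injEq] at h
      obtain ⟨h1, h2⟩ := vk_inj w w' s s' h.2
      have : a = b := by omega
      simp [this, h1, h2]

theorem pk_nn (s t : ℕ) : pk [] s < pk [] t ↔ s < t := by
  simp [pk, List.cons_lt_cons_iff]
theorem pk_nc (s t b : ℕ) (w : List ℕ) : ¬ pk [] s < pk (b :: w) t := by
  simp [pk, List.cons_lt_cons_iff]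
theorem pk_cn (s t b : ℕ) (w : List ℕ) : pk (b :: w) s < pk [] t := by
  simp [pk, List.cons_lt_cons_iff]
theorem pk_cc (s t a b : ℕ) (w w' : List ℕ) :
    pk (a :: w) s < pk (b :: w') t ↔ a < b ∨ (a = b ∧ pk w s < pk w' t) := by
  simp [pk, List.cons_lt_cons_iff]
theorem vk_nn (s t : ℕ) : vk [] s < vk [] t ↔ s < t := by
  simp [vk, List.cons_lt_cons_iff]
theorem vk_nc (s t b : ℕ) (w : List ℕ) : vk [] s < vk (b :: w) t ↔ s < b := by
  simp only [vk, List.cons_lt_cons_iff]
  constructor
  · rintro (h | ⟨h, _⟩) <;> omega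
  · intro h; left; omega
theorem vk_cn (s t b : ℕ) (w : List ℕ) : vk (b :: w) s < vk [] t ↔ b ≤ t := by
  simp only [vk, List.cons_lt_cons_iff]
  constructor
  · rintro (h | ⟨h, _⟩) <;> omega
  · intro h; left; omega
theorem vk_cc (s t a b : ℕ) (w w' : List ℕ) :
    vk (a :: w) s < vk (b :: w') t ↔ a < b ∨ (a = b ∧ vk w s < vk w' t) := by
  simp only [vk, List.cons_lt_cons_iff]
  constructor
  · rintro (h | ⟨h, h'⟩)
    · left; omega
    · right; exact ⟨by omega, h'⟩
  · rintro (h | ⟨h, h'⟩)
    · left; omega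
    · right; exact ⟨by omega, h'⟩

/-- The finite tree of depth `n` and width `k`. -/
def InT (n k : ℕ) (x : Pt) : Prop := x.1.length < n ∧ (∀ a ∈ x.1, a ≤ k) ∧ x.2 < k

/-- There is a copy of the tree `(a,k)` of colour `v` inside the tree `(n,m)`. -/
def Mono (c : Pt → Bool) (v : Bool) (a k n m : ℕ) : Prop :=
  ∃ φ : Pt → Pt, (∀ x, InT a k x → InT n m (φ x) ∧ c (φ x) = v) ∧
    (∀ x y, InT a k x → InT a k y →
      (pk x.1 x.2 < pk y.1 y.2 ↔ pk (φ x).1 (φ x).2 < pk (φ y).1 (φ y).2) ∧
      (vk x.1 x.2 < vk y.1 y.2 ↔ vk (φ x).1 (φ x).2 < vk (φ y).1 (φ y).2))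

theorem mono_zero (c : Pt → Bool) (v : Bool) (k n m : ℕ) : Mono c v 0 k n m :=
  ⟨id, fun x hx => absurd hx.1 (by simp), fun x y hx _ => absurd hx.1 (by simp)⟩

theorem mono_lift (c : Pt → Bool) (v : Bool) (a k n m j : ℕ) (hj : j ≤ m)
    (h : Mono (fun x => c (j :: x.1, x.2)) v a k n m) : Mono c v a k (n + 1) m := by
  obtain ⟨φ, h1, h2⟩ := h
  refine ⟨fun x => (j :: (φ x).1, (φ x).2), fun x hx => ?_, fun x y hx hy => ?_⟩
  · obtain ⟨⟨h3, h4, h5⟩, h6⟩ := h1 x hx
    refine ⟨⟨by simpa using h3, ?_, h5⟩, h6⟩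
    intro b hb
    rcases List.mem_cons.1 hb with rfl | hb
    · exact hj
    · exact h4 b hb
  · simp only [pk_cc, vk_cc, lt_irrefl, false_or, true_and]
    exact h2 x y hx hy

theorem mono_step (c : Pt → Bool) (v : Bool) (a k n m : ℕ)
    (hk : k ≤ ((Finset.range m).filter (fun s => c ([], s) = v)).card)
    (h : ∀ j, j ≤ m → Mono (fun x => c (j :: x.1, x.2)) v a k n m) :
    Mono c v (a + 1) k (n + 1) m := by
  classical
  set R := (Finset.range m).filter (fun s => c ([], s) = v) with hR
  let e : Fin k ↪o ℕ := R.orderEmbOfCardLe hk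
  have he : ∀ i, e i ∈ R := fun i => R.orderEmbOfCardLe_mem hk i
  let g : ℕ → ℕ := fun i => if hi : i < k then e ⟨i, hi⟩ else m
  have hg1 : ∀ i, i < k → g i < m ∧ c ([], g i) = v := by
    intro i hi
    have := he ⟨i, hi⟩
    simp only [hR, Finset.mem_filter, Finset.mem_range] at this
    simpa [g, hi] using this
  have hg2 : ∀ i, g i ≤ m := by
    intro i
    by_cases hi : i < k
    · exact (hg1 i hi).1.le
    · simp [g, hi]
  have hg3 : ∀ i j, i ≤ k → j ≤ k → (i < j ↔ g i < g j) := by
    intro i j hi hj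
    by_cases hi' : i < k
    · by_cases hj' : j < k
      · simp only [g, hi', hj', dif_pos]
        rw [e.lt_iff_lt]; rfl
      · have h1 := (hg1 i hi').1
        have h2 : g j = m := by simp [g, hj']
        omega
    · have h2 : g i = m := by simp [g, hi']
      have h3 := hg2 j
      omega
  have hg4 : ∀ i j, i ≤ k → j ≤ k → (i = j ↔ g i = g j) := by
    intro i j hi hj
    have h1 := hg3 i j hi hj
    have h2 := hg3 j i hj hi
    omega
  choose! ψ hψ1 hψ2 using h
  let φ : Pt → Pt := fun x => match x with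
    | ([], s) => ([], g s)
    | (i :: w, s) => (g i :: (ψ (g i) (w, s)).1, (ψ (g i) (w, s)).2)
  have hsub : ∀ i w s, InT (a + 1) k (i :: w, s) → i ≤ k ∧ InT a k (w, s) := by
    rintro i w s ⟨h1, h2, h3⟩
    exact ⟨h2 i (by simp), by simpa using h1, fun b hb => h2 b (by simp [hb]), h3⟩
  refine ⟨φ, ?_, ?_⟩
  · rintro ⟨w, s⟩ hx
    cases w with
    | nil =>
      have := hg1 s hx.2.2
      exact ⟨⟨by simp [φ], by simp [φ], this.1⟩, this.2⟩
    | cons i w =>
      obtain ⟨hi, hw⟩ := hsub i w s hx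
      obtain ⟨⟨h3, h4, h5⟩, h6⟩ := hψ1 (g i) (hg2 i) (w, s) hw
      refine ⟨⟨by simpa [φ] using h3, ?_, h5⟩, h6⟩
      intro b hb
      rcases List.mem_cons.1 hb with rfl | hb
      · exact hg2 i
      · exact h4 b hb
  · rintro ⟨w, s⟩ ⟨w', t⟩ hx hy
    cases w with
    | nil =>
      have hs : s < k := hx.2.2
      cases w' with
      | nil =>
        have ht : t < k := hy.2.2
        simp only [φ, pk_nn, vk_nn]
        exact ⟨hg3 s t hs.le ht.le, hg3 s t hs.le ht.le⟩
      | cons j w' =>
        obtain ⟨hj, _⟩ := hsub j w' t hy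
        simp only [φ, pk_nc, vk_nc, true_and]
        exact hg3 s j hs.le hj
    | cons i w =>
      obtain ⟨hi, hw⟩ := hsub i w s hx
      cases w' with
      | nil =>
        have ht : t < k := hy.2.2
        simp only [φ, pk_cn, vk_cn, true_and]
        have := hg3 t i ht.le hi
        omega
      | cons j w' =>
        obtain ⟨hj, hw'⟩ := hsub j w' t hy
        simp only [φ, pk_cc, vk_cc]
        by_cases hij : i = j
        · subst hij
          simp only [lt_irrefl, false_or, true_and]
          exact hψ2 (g i) (hg2 i) (w, s) (w', t) hw hw'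
        · have h1 := hg3 i j hi hj
          have h2 : g i ≠ g j := fun h => hij ((hg4 i j hi hj).2 h)
          simp [hij, h2, h1]

theorem ramsey (k l : ℕ) : ∀ (n a b : ℕ), a + b = n → ∀ c : Pt → Bool,
    Mono c true a k n (k + l) ∨ Mono c false b l n (k + l) := by
  intro n
  induction n with
  | zero =>
    intro a b h c
    have : a = 0 := by omega
    subst this
    exact Or.inl (mono_zero _ _ _ _ _)
  | succ n ih =>
    intro a b h c
    rcases a with _ | a
    · exact Or.inl (mono_zero _ _ _ _ _)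
    rcases b with _ | b
    · exact Or.inr (mono_zero _ _ _ _ _)
    have hcard : ((Finset.range (k + l)).filter (fun s => c ([], s) = true)).card +
        ((Finset.range (k + l)).filter (fun s => c ([], s) = false)).card = k + l := by
      have := Finset.card_filter_add_card_filter_not (s := Finset.range (k + l))
        (fun s => c ([], s) = true)
      simpa using this
    by_cases hk : k ≤ ((Finset.range (k + l)).filter (fun s => c ([], s) = true)).card
    · by_cases hb : ∃ j, j ≤ k + l ∧ Mono (fun x => c (j :: x.1, x.2)) false (b + 1) l n (k + l)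
      · obtain ⟨j, hj, hm⟩ := hb
        exact Or.inr (mono_lift _ _ _ _ _ _ j hj hm)
      · refine Or.inl (mono_step _ _ _ _ _ _ hk fun j hj => ?_)
        rcases ih a (b + 1) (by omega) (fun x => c (j :: x.1, x.2)) with h1 | h1
        · exact h1
        · exact absurd ⟨j, hj, h1⟩ hb
    · have hl : l ≤ ((Finset.range (k + l)).filter (fun s => c ([], s) = false)).card := by omega
      by_cases hb : ∃ j, j ≤ k + l ∧ Mono (fun x => c (j :: x.1, x.2)) true (a + 1) k n (k + l)
      · obtain ⟨j, hj, hm⟩ := hb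
        exact Or.inl (mono_lift _ _ _ _ _ _ j hj hm)
      · refine Or.inr (mono_step _ _ _ _ _ _ hl fun j hj => ?_)
        rcases ih (a + 1) b (by omega) (fun x => c (j :: x.1, x.2)) with h1 | h1
        · exact absurd ⟨j, hj, h1⟩ hb
        · exact h1

theorem no1342 : ∀ (w1 w2 w3 w4 : List ℕ) (s1 s2 s3 s4 : ℕ),
    pk w1 s1 < pk w2 s2 → pk w2 s2 < pk w3 s3 → pk w3 s3 < pk w4 s4 →
    vk w3 s3 < vk w2 s2 → vk w2 s2 < vk w4 s4 → vk w4 s4 < vk w1 s1 → False := by
  intro w1
  induction w1 with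
  | nil =>
    intro w2 w3 w4 s1 s2 s3 s4 h1 h2 h3 h4 h5 h6
    cases w2 with
    | cons a w => exact pk_nc _ _ _ _ h1
    | nil =>
      cases w3 with
      | cons a w => exact pk_nc _ _ _ _ h2
      | nil =>
        rw [pk_nn] at h2
        rw [vk_nn] at h4
        omega
  | cons a1 w1 ih =>
    intro w2 w3 w4 s1 s2 s3 s4 h1 h2 h3 h4 h5 h6
    cases w2 with
    | nil =>
      cases w3 with
      | cons a w => exact pk_nc _ _ _ _ h2
      | nil =>
        rw [pk_nn] at h2
        rw [vk_nn] at h4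
        omega
    | cons a2 w2 =>
      cases w4 with
      | nil =>
        rw [pk_cc] at h1
        rw [vk_cn] at h5
        rw [vk_nc] at h6
        omega
      | cons a4 w4 =>
        cases w3 with
        | nil => exact pk_nc _ _ _ _ h3
        | cons a3 w3 =>
          rw [pk_cc] at h1 h2 h3
          rw [vk_cc] at h4 h5 h6
          have e1 : a1 = a2 := by omega
          have e2 : a2 = a3 := by omega
          have e3 : a3 = a4 := by omega
          subst e1 e2 e3
          simp only [lt_irrefl, false_or, true_and] at h1 h2 h3 h4 h5 h6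
          exact ih _ _ _ _ _ _ _ h1 h2 h3 h4 h5 h6

theorem finite_InT (n k : ℕ) : {x : Pt | InT n k x}.Finite := by
  have h1 : {w : List (Fin (k + 1)) | w.length < n}.Finite := List.finite_length_lt _ n
  refine ((h1.image (fun w => w.map Fin.val)).prod (Set.finite_lt_nat k)).subset ?_
  rintro ⟨w, s⟩ ⟨h1, h2, h3⟩
  refine ⟨⟨w.attach.map (fun a => ⟨a.1, Nat.lt_succ_of_le (h2 a.1 a.2)⟩), by simpa using h1, ?_⟩, h3⟩
  simp [List.map_map, Function.comp_def]

theorem exists_sort {X L : Type} [Fintype X] [LinearOrder L] (p : X → L)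
    (hp : Function.Injective p) :
    ∃ e : Fin (Fintype.card X) ≃ X, ∀ i j, i < j ↔ p (e i) < p (e j) := by
  letI : LinearOrder X := LinearOrder.lift' p hp
  let e := monoEquivOfFin X (k := Fintype.card X) rfl
  exact ⟨e.toEquiv, fun i j => e.lt_iff_lt.symm⟩

/-- Standardisation of the finite tree as a permutation. -/
theorem exists_perm (n k : ℕ) : ∃ (N : ℕ) (τ : Equiv.Perm (Fin N)) (f : Fin N → Pt),
    (∀ i, InT n k (f i)) ∧ (∀ x, InT n k x → ∃ i, f i = x) ∧
    (∀ i j, i < j ↔ pk (f i).1 (f i).2 < pk (f j).1 (f j).2) ∧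
    (∀ i j, τ i < τ j ↔ vk (f j).1 (f j).2 < vk (f i).1 (f i).2) := by
  haveI : Fintype {x : Pt | InT n k x} := (finite_InT n k).fintype
  obtain ⟨e1, h1⟩ := exists_sort (X := {x : Pt | InT n k x}) (fun x => pk x.1.1 x.1.2) (by
    intro x y h
    obtain ⟨h1, h2⟩ := pk_inj _ _ _ _ h
    exact Subtype.ext (Prod.ext h1 h2))
  obtain ⟨e2, h2⟩ := exists_sort (X := {x : Pt | InT n k x}) (L := (List ℕ)ᵒᵈ)
    (fun x => OrderDual.toDual (vk x.1.1 x.1.2)) (by
    intro x y h
    obtain ⟨h1, h2⟩ := vk_inj _ _ _ _ (OrderDual.toDual.injective h)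
    exact Subtype.ext (Prod.ext h1 h2))
  refine ⟨_, e1.trans e2.symm, fun i => (e1 i).1, fun i => (e1 i).2, fun x hx =>
    ⟨e1.symm ⟨x, hx⟩, by simp⟩, h1, fun i j => ?_⟩
  rw [h2]
  simp

end Pool.Agent.Lib.MP_2af702_co
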